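import Pool.Agent.TH133.MZ.Window

/-!
# MP_c2d7b4_nt: Hoffman's conjecture, windows of weights and density

Assume given elements of an algebra with the properties of the motivic multiple zeta values of the
words in `2`, `3`. Then the following are equivalent.

1. The Hoffman elements (of all weights) are linearly independent.
2. For every length `l` there are arbitrarily large `n` such that the Hoffman elements with weights
   in `[n, n + l]` are linearly independent.
3. For every `ε > 0` there are arbitrarily large `n` such that the Hoffman elements of weight at
   most `n` span a space of dimension at least `(1 - ε)` times their number.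
-/

open Module

namespace Pool.Agent.Results.MP_c2d7b4_nt.BoundedWeight

open Pool.Agent.TH133.MZ

/-- **The Hoffman elements are linearly independent if and only if this is true for those with
weights in `[n, n + l]`, for each `l` and arbitrarily large `n`; and if and only if it is true up to
a proportion `ε` of them.** -/
theorem result {H : Type*} [CommRing H] [Algebra ℚ H] {v : List ℕ → H} {per : H →ₐ[ℚ] ℝ}
    (h : IsHoffmanModel v per) :
    List.TFAE [
      LinearIndependent ℚ (fun s : {s : List ℕ // IsHoffman s} => zetaDec s),
      ∀ l N : ℕ, ∃ n : ℕ, N ≤ n ∧ LinearIndependent ℚ (fun s : WordsIn n (n + l) => zetaDec s),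
      ∀ ε : ℝ, 0 < ε → ∀ N : ℕ, ∃ n : ℕ, N ≤ n ∧ (1 - ε) * Nat.card (WordsIn 0 n) ≤
        finrank ℚ (Submodule.span ℚ (zetaDec '' WordsIn 0 n))] :=
  window_tfae h

end Pool.Agent.Results.MP_c2d7b4_nt.BoundedWeight
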