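import Mathlib
import Pool.Agent.TH120.HM.Cor

/-!
# An explicit measure of linear independence for the Hoffman elements `1, ζ(2), ζ(3)`
-/

set_option autoImplicit false

namespace Pool.Agent.Results.MP_c2d7b4_nt.MeasureWeightThree

/-- (1) There is `c > 0` with `|a + b ζ(2) + d ζ(3)| ≥ c H ^ (-227)` for all integers `a, b, d` not all zero and all
real `H ≥ 1` with `|b|, |d| ≤ H`.
(2) For every rational `s` there is `c > 0` with `|ζ(3) + s π ^ 2 - p / q| ≥ c q ^ (-228)` for all integers `p` and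
`q > 0`.
(3) For every rational `r` there is `c > 0` with `|(ζ(3) + r) / π ^ 2 - p / q| ≥ c q ^ (-228)` for all integers `p` and
`q > 0`. -/
theorem result :
    (∃ c : ℝ, 0 < c ∧ ∀ (a b d : ℤ) (H : ℝ), 1 ≤ H → ¬ (a = 0 ∧ b = 0 ∧ d = 0) →
      |(b : ℝ)| ≤ H → |(d : ℝ)| ≤ H →
      c * H ^ (-227 : ℝ) ≤ |(a : ℝ) + b * (∑' n : ℕ, 1 / ((n : ℝ) + 1) ^ 2) +
        d * (∑' n : ℕ, 1 / ((n : ℝ) + 1) ^ 3)|) ∧
    (∀ s : ℚ, ∃ c : ℝ, 0 < c ∧ ∀ p q : ℤ, 0 < q →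
      c * (q : ℝ) ^ (-228 : ℝ) ≤ |(∑' n : ℕ, 1 / ((n : ℝ) + 1) ^ 3) + s * Real.pi ^ 2 - p / q|) ∧
    (∀ r : ℚ, ∃ c : ℝ, 0 < c ∧ ∀ p q : ℤ, 0 < q →
      c * (q : ℝ) ^ (-228 : ℝ) ≤ |((∑' n : ℕ, 1 / ((n : ℝ) + 1) ^ 3) + r) / Real.pi ^ 2 - p / q|) := by
  have e : (-(227 + 1) : ℝ) = -228 := by norm_num
  refine ⟨?_, ?_, ?_⟩
  · obtain ⟨c, hc, h⟩ := Pool.Agent.TH120.HM.measure_all
    exact ⟨c, hc, fun a b d H hH h0 hb hd => h a b d H hH h0 hb hd⟩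
  · intro s
    obtain ⟨c, hc, h⟩ := Pool.Agent.TH120.HM.shifts s
    refine ⟨c, hc, fun p q hq => ?_⟩
    have := h p q hq
    rwa [e] at this
  · intro r
    obtain ⟨c, hc, h⟩ := Pool.Agent.TH120.HM.quotients r
    refine ⟨c, hc, fun p q hq => ?_⟩
    have := h p q hq
    rwa [e] at this

end Pool.Agent.Results.MP_c2d7b4_nt.MeasureWeightThree
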